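import Pool.Agent.Helper76.CV.Goals

/-!
# Project CV: packet CV-BAF.
-/

set_option autoImplicit false

namespace Pool.Agent.Helper89.CV.BAF

theorem t : Pool.Agent.Helper76.CV.BAF := by
  rintro c d c2 w ⟨h1, h2, h3, h4⟩ hw
  have hs1 : √(1 - c) ≤ 1 := by
    rw [Real.sqrt_le_left zero_le_one]
    linarith
  have hw5 : 1 / 5 ≤ w := by
    have := (abs_le.1 hw).1
    linarith
  have hw0 : 0 < w := by linarith
  have hx : 0 ≤ (d / w) ^ 2 := sq_nonneg _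
  set G := 1 - c + (d / w) ^ 2 with hG
  have hG1 : (999 / 1000 : ℝ) ^ 2 ≤ G := by
    norm_num
    linarith
  have hG0 : 0 < G := lt_of_lt_of_le (by norm_num) hG1
  have hR : 999 / 1000 ≤ √G := Real.le_sqrt_of_sq_le hG1
  refine ⟨hw0, hG0, ?_⟩
  have e1 : (1 - c) / G ≤ 1 := by
    rw [div_le_one hG0]
    linarith
  have e1' : 0 ≤ (1 - c) / G := div_nonneg (by linarith) hG0.le
  have e2 : |c2| / w ^ 2 ≤ 25 / 10 ^ 6 := by
    rw [div_le_iff₀ (by positivity)]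
    nlinarith
  have e3 : |c2| / w ^ 2 * ((1 - c) / G) ≤ 25 / 10 ^ 6 := by
    have : |c2| / w ^ 2 * ((1 - c) / G) ≤ 25 / 10 ^ 6 * 1 :=
      mul_le_mul e2 e1 e1' (by norm_num)
    linarith
  have e4 : 1 / w ≤ 5 := by
    rw [div_le_iff₀ hw0]
    linarith
  have e5 : 1 / w * √G ≤ 5 * √G := mul_le_mul_of_nonneg_right e4 (Real.sqrt_nonneg _)
  linarith

end Pool.Agent.Helper89.CV.BAF
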