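import Pool.Agent.Helper76.CV.Goals

/-!
# Project CV: packet CV-CCN.
-/

set_option autoImplicit false

open scoped ContDiff

namespace Pool.Agent.Helper89.CV.CCN

open Pool.Agent.Helper76.CV

theorem hasDerivAt_of {F : ℝ → ℝ} (hF : ContDiff ℝ ∞ F) (x : ℝ) : HasDerivAt F (deriv F x) x :=
  (hF.differentiable (by norm_num)).differentiableAt.hasDerivAt

theorem cd_deriv {F : ℝ → ℝ} (hF : ContDiff ℝ ∞ F) : ContDiff ℝ ∞ (deriv F) := by
  exact (contDiff_infty_iff_deriv.1 hF).2

theorem smaff {F : ℝ → ℝ} (hF : ContDiff ℝ ∞ F) {K : ℝ} (a b t : ℝ) (hb : |b| ≤ 8)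
    (h : Sm F (a + b * t) K) : Sm (fun u => F (a + b * u)) t (64 * K) := by
  obtain ⟨h0, h1, h2⟩ := h
  have hK : 0 ≤ K := (abs_nonneg _).trans h0
  have hl : ∀ u, HasDerivAt (fun u => a + b * u) b u := by
    intro u
    simpa using ((hasDerivAt_id u).const_mul b).const_add a
  have e1 : deriv (fun u => F (a + b * u)) = fun u => deriv F (a + b * u) * b := by
    funext u
    exact ((hasDerivAt_of hF (a + b * u)).comp u (hl u)).deriv
  have e2 : deriv (deriv (fun u => F (a + b * u))) t = deriv (deriv F) (a + b * t) * b * b := by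
    rw [e1]
    exact (((hasDerivAt_of (cd_deriv hF) (a + b * t)).comp t (hl t)).mul_const b).deriv
  refine ⟨?_, ?_, ?_⟩
  · exact h0.trans (by linarith)
  · rw [e1, abs_mul]
    calc |deriv F (a + b * t)| * |b| ≤ K * 8 :=
          mul_le_mul h1 hb (abs_nonneg _) hK
      _ ≤ 64 * K := by linarith
  · rw [e2, abs_mul, abs_mul]
    calc |deriv (deriv F) (a + b * t)| * |b| * |b| ≤ K * 8 * 8 :=
          mul_le_mul (mul_le_mul h2 hb (abs_nonneg _) hK) hb (abs_nonneg _) (by linarith)
      _ ≤ 64 * K := by linarith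

theorem smmul {F G : ℝ → ℝ} (hF : ContDiff ℝ ∞ F) (hG : ContDiff ℝ ∞ G) {a b t : ℝ}
    (h : Sm F t a) (h' : Sm G t b) : Sm (fun u => F u * G u) t (4 * (a * b)) := by
  obtain ⟨h0, h1, h2⟩ := h
  obtain ⟨g0, g1, g2⟩ := h'
  have ha : 0 ≤ a := (abs_nonneg _).trans h0
  have hb : 0 ≤ b := (abs_nonneg _).trans g0
  have hab : 0 ≤ a * b := mul_nonneg ha hb
  have e1 : deriv (fun u => F u * G u) = fun u => deriv F u * G u + F u * deriv G u := by
    funext u
    exact ((hasDerivAt_of hF u).mul (hasDerivAt_of hG u)).deriv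
  have e2 : deriv (deriv (fun u => F u * G u)) t = (deriv (deriv F) t * G t + deriv F t * deriv G t)
      + (deriv F t * deriv G t + F t * deriv (deriv G) t) := by
    rw [e1]
    exact (((hasDerivAt_of (cd_deriv hF) t).mul (hasDerivAt_of hG t)).add
      ((hasDerivAt_of hF t).mul (hasDerivAt_of (cd_deriv hG) t))).deriv
  have m : ∀ x y : ℝ, |x| ≤ a → |y| ≤ b → |x * y| ≤ a * b := fun x y hx hy => by
    rw [abs_mul]
    exact mul_le_mul hx hy (abs_nonneg _) ha
  refine ⟨?_, ?_, ?_⟩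
  · exact (m _ _ h0 g0).trans (by linarith)
  · rw [e1]
    refine (abs_add_le _ _).trans ?_
    have := m _ _ h1 g0
    have := m _ _ h0 g1
    linarith
  · rw [e2]
    refine (abs_add_le _ _).trans ?_
    have q1 := abs_add_le (deriv (deriv F) t * G t) (deriv F t * deriv G t)
    have q2 := abs_add_le (deriv F t * deriv G t) (F t * deriv (deriv G) t)
    have := m _ _ h2 g0
    have := m _ _ h1 g1
    have := m _ _ h0 g2
    linarith

theorem smmono {F : ℝ → ℝ} {t a b : ℝ} (h : Sm F t a) (hab : a ≤ b) : Sm F t b :=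
  ⟨h.1.trans hab, h.2.1.trans hab, h.2.2.trans hab⟩

theorem t (hs : STB) (ha : HNA) (hb : HNB) : Pool.Agent.Helper76.CV.CCN := by
  obtain ⟨K, hK, hS⟩ := hs
  have hSc : ContDiff ℝ ∞ Real.smoothTransition := Real.smoothTransition.contDiff
  refine ⟨4 * (4 * (64 * K * (64 * K)) * 200), by positivity, ?_⟩
  intro P τ hP hτ
  have hP0 : 0 < P := by linarith
  have hb8 : |(-(8 / P) : ℝ)| ≤ 8 := by
    rw [abs_neg, abs_of_pos (by positivity), div_le_iff₀ hP0]
    linarith
  have hb8' : |(8 / P : ℝ)| ≤ 8 := by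
    rw [abs_of_pos (by positivity), div_le_iff₀ hP0]
    linarith
  have c1 : (fun u => chi P u) = fun u => Real.smoothTransition (2 + -(8 / P) * u) := by
    funext u
    unfold chi
    congr 1
    ring
  have c2 : (fun u => chi P (-u)) = fun u => Real.smoothTransition (2 + 8 / P * u) := by
    funext u
    unfold chi
    congr 1
    ring
  have d1 : ContDiff ℝ ∞ (fun u => chi P u) := by
    rw [c1]
    exact hSc.comp (contDiff_const.add (contDiff_const.mul contDiff_id))
  have d2 : ContDiff ℝ ∞ (fun u => chi P (-u)) := by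
    rw [c2]
    exact hSc.comp (contDiff_const.add (contDiff_const.mul contDiff_id))
  have s1 : Sm (fun u => chi P u) τ (64 * K) := by
    rw [c1]
    exact smaff hSc _ _ _ hb8 (hS _)
  have s2 : Sm (fun u => chi P (-u)) τ (64 * K) := by
    rw [c2]
    exact smaff hSc _ _ _ hb8' (hS _)
  have s3 := smmul (d1.mul d2) ha.1 (smmul d1 d2 s1 s2) (hb.1 τ)
  refine smmono s3 ?_
  have he : Real.exp (-(7 * |τ|)) ≤ Real.exp (-(P / 2)) := by
    rw [Real.exp_le_exp]
    linarith
  have hc : 0 ≤ 4 * (4 * (64 * K * (64 * K)) * 200) := by positivity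
  calc 4 * (4 * (64 * K * (64 * K)) * (200 * Real.exp (-(7 * |τ|))))
      = 4 * (4 * (64 * K * (64 * K)) * 200) * Real.exp (-(7 * |τ|)) := by ring
    _ ≤ 4 * (4 * (64 * K * (64 * K)) * 200) * Real.exp (-(P / 2)) :=
        mul_le_mul_of_nonneg_left he hc

end Pool.Agent.Helper89.CV.CCN
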